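import Mathlib
import Pool.Agent.Lib.MP_5f8894_co.Defs
import Pool.Agent.Lib.MP_5f8894_co.Upper

set_option autoImplicit false

namespace Pool.Agent.Results.MP_5f8894_co.ThetaThreeAE

open Pool.Agent.MP_5f8894_co

/-- Almost every graph `G` has `3`-ASC index `3`: the proportion of the labelled graphs on
`n` vertices with `theta 3 G = 3` tends to `1`. -/
theorem result :
    Filter.Tendsto
      (fun n : ℕ => (Nat.card {G : SimpleGraph (Fin n) // theta 3 G = 3} : ℝ) /
        (Nat.card (SimpleGraph (Fin n)) : ℝ))
      Filter.atTop (nhds 1) :=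
  tendsto_of_good (fun _ G => theta 3 G = 3)
    (fun _ _ hn hG => theta_eq_three hG (by simpa using hn))

end Pool.Agent.Results.MP_5f8894_co.ThetaThreeAE
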